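import Pool.Agent.Helper24.FF.Stmts

/-! Full list for MP_866009_co, part F: a hub with at most two runs of neighbours on the rim. -/

set_option autoImplicit false

namespace Pool.Agent.Helper24.FF

open Pool.Agent.Helper64.CT Pool.Agent.Helper64.DT Pool.Agent.Helper64.FL
open Pool.Agent.Helper64.HG (Ovl Model Circ IC HellyCircle ChordModel)

/-- the numbers between the ends of the chord number `i` of the rim -/
theorem wsr_bt {V : Type} (a b : V → ℤ) (v : ℕ → V) (n : ℕ) (hn : 4 ≤ n)
    (hA : ∀ i, i < n → a (v i) = 4 * i + 2) (hB : ∀ i, i + 1 < n → b (v i) = 4 * i + 8)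
    (hC : ∀ i, i + 1 = n → b (v i) = 4) (i : ℕ) (hi : i < n) (g : ℤ) :
    bt (a (v i)) (b (v i)) g ↔ ((i + 1 < n ∧ 4 * (i : ℤ) + 2 < g ∧ g < 4 * i + 8) ∨
      (i + 1 = n ∧ 4 < g ∧ g < 4 * i + 2)) := by
  unfold bt
  rcases Nat.lt_or_ge (i + 1) n with h | h
  · rw [hA i hi, hB i h]
    omega
  · have h' : i + 1 = n := by omega
    rw [hA i hi, hC i h']
    omega

/-- adjacency on the rim -/
theorem wsr_adj {V : Type} (G : SimpleGraph V) (S : Set V) (a b : V → ℤ) (v : ℕ → V) (n : ℕ)
    (hn : 4 ≤ n) (hM : CM G S a b) (hS : ∀ i, i < n → v i ∈ S)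
    (hA : ∀ i, i < n → a (v i) = 4 * i + 2) (hB : ∀ i, i + 1 < n → b (v i) = 4 * i + 8)
    (hC : ∀ i, i + 1 = n → b (v i) = 4) (i j : ℕ) (hij : i < j) (hj : j < n) :
    v i ≠ v j ∧ (G.Adj (v i) (v j) ↔ (j = i + 1 ∨ (i = 0 ∧ j + 1 = n))) := by
  have hne : v i ≠ v j := by
    intro h
    have h1 := hA i (by omega)
    have h2 := hA j hj
    rw [h, h2] at h1
    omega
  refine ⟨hne, ?_⟩
  rw [hM.ad _ (hS i (by omega)) _ (hS j hj) hne, wsr_bt a b v n hn hA hB hC i (by omega),
    wsr_bt a b v n hn hA hB hC i (by omega), hA j hj]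
  rcases Nat.lt_or_ge (j + 1) n with h | h
  · rw [hB j h]
    omega
  · have h' : j + 1 = n := by omega
    rw [hC j h']
    omega

theorem st_WSR (h1 : ST_WCY) (h2 : ST_INS) : ST_WSR := by
  intro V G h r l M hDF hR hhr hhM hadj hl hnl hno
  obtain ⟨a, b, hM, hpos⟩ := h1 V G r M hR
  have hlen : 4 ≤ (r :: M).length := by
    have := hR.len
    simp only [List.length_cons]
    omega
  generalize hL : r :: M = L at hM hpos hlen hno
  have hhL : h ∉ L := by
    rw [← hL]
    simp only [List.mem_cons, not_or]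
    exact ⟨hhr, hhM⟩
  obtain ⟨n, hn⟩ : ∃ n, L.length = n := ⟨_, rfl⟩
  rw [hn] at hlen
  obtain ⟨v, hv⟩ : ∃ v : ℕ → V, ∀ (i : ℕ) (hi : i < L.length), v i = L[i] :=
    ⟨fun i => L.getD i r, fun i hi => List.getD_eq_getElem L r hi⟩
  have hA : ∀ i, i < n → a (v i) = 4 * i + 2 := by
    intro i hi
    rw [hv i (by omega)]
    exact (hpos i (by omega)).1
  have hB : ∀ i, i + 1 < n → b (v i) = 4 * i + 8 := by
    intro i hi
    rw [hv i (by omega)]
    exact (hpos i (by omega)).2.1 (by omega)
  have hC : ∀ i, i + 1 = n → b (v i) = 4 := by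
    intro i hi
    rw [hv i (by omega)]
    exact (hpos i (by omega)).2.2 (by omega)
  have hS : ∀ i, i < n → v i ∈ LS L := by
    intro i hi
    rw [hv i (by omega)]
    exact List.getElem_mem _
  have hsur : ∀ y ∈ LS L, ∃ i, i < n ∧ v i = y := by
    intro y hy
    obtain ⟨i, hi, h⟩ := List.getElem_of_mem hy
    exact ⟨i, by omega, by rw [hv i hi, h]⟩
  have hbt := wsr_bt a b v n hlen hA hB hC
  have had := wsr_adj G (LS L) a b v n hlen hM hS hA hB hC
  have hv0 : G.Adj h (v 0) := by
    rw [hv 0 (by omega)]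
    subst hL
    exact hadj
  have hvl : ∀ i, i + 1 = n → ¬ G.Adj h (v i) := by
    intro i hi
    rw [hv i (by omega)]
    have hLl : L.getLast? = some l := by
      rw [← hL, List.getLast?_cons, hl]
      rfl
    have : L[i]'(by omega) = l := by
      rw [List.getLast?_eq_getElem?] at hLl
      rw [show L.length - 1 = i by omega, List.getElem?_eq_getElem (by omega)] at hLl
      exact Option.some_inj.1 hLl
    rw [this]
    exact hnl
  have hxS : h ∉ LS L := hhL
  -- three vertices
  have hno' : ∀ i j k, i < j → j < k → k < n → G.Adj h (v i) → G.Adj h (v j) → G.Adj h (v k) →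
      ¬ (j ≠ i + 1 ∧ k ≠ j + 1 ∧ ¬ (i = 0 ∧ k + 1 = n)) := by
    intro i j k hij hjk hk hi' hj' hk' hh
    obtain ⟨e1, a1⟩ := had i j hij (by omega)
    obtain ⟨e2, a2⟩ := had j k hjk hk
    obtain ⟨e3, a3⟩ := had i k (by omega) hk
    apply hno
    refine ⟨v i, hS i (by omega), v j, hS j (by omega), v k, hS k hk, hi', hj', hk', e1, e3, e2,
      ?_, ?_, ?_⟩
    · rw [a1]
      omega
    · rw [a3]
      omega
    · rw [a2]
      omega
  have h3 : ∀ i, i + 2 < n → G.Adj h (v i) → G.Adj h (v (i + 1)) → G.Adj h (v (i + 2)) →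
      False := by
    intro i hi g1 g2 g3
    obtain ⟨e1, a1⟩ := had i (i + 1) (by omega) (by omega)
    obtain ⟨e2, a2⟩ := had (i + 1) (i + 2) (by omega) (by omega)
    obtain ⟨e3, a3⟩ := had i (i + 2) (by omega) (by omega)
    have := hDF h (v (i + 1)) (v i) (v (i + 2)) g2 g1 ((a1.2 (Or.inl rfl)).symm) g3
      (a2.2 (Or.inl rfl)) e3
    rw [a3] at this
    omega
  -- insertion
  have key : ∀ s t : ℤ, Od s → Od t → s ≠ t →
      (∀ i, i < n → (¬ (bt (a (v i)) (b (v i)) s ↔ bt (a (v i)) (b (v i)) t) ↔ G.Adj h (v i))) →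
      CE G (insert h (LS L)) := by
    intro s t hs ht hst hh
    have := h2 V G (LS L) a b h s t hM hxS hs ht hst (by
      intro y hy
      obtain ⟨i, hi, rfl⟩ := hsur y hy
      exact hh i hi)
    exact ⟨_, _, this.1⟩
  -- the first run
  obtain ⟨t, ht, htN, htn⟩ : ∃ t : ℕ, t ≤ 1 ∧ (∀ i, i ≤ t → G.Adj h (v i)) ∧
      ¬ G.Adj h (v (t + 1)) := by
    by_cases g1 : G.Adj h (v 1)
    · refine ⟨1, le_rfl, ?_, fun g2 => h3 0 (by omega) hv0 g1 g2⟩
      intro i hi
      interval_cases i
      · exact hv0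
      · exact g1
    · refine ⟨0, by omega, ?_, g1⟩
      intro i hi
      rw [Nat.le_zero.1 hi]
      exact hv0
  by_cases hrest : ∃ j, t < j ∧ j < n ∧ G.Adj h (v j)
  · classical
    obtain ⟨hj1, hj2, hj3⟩ := Nat.find_spec hrest
    have hjm : ∀ i, i < Nat.find hrest → t < i → i < n → ¬ G.Adj h (v i) := by
      intro i hi ht' hin hadj'
      exact Nat.find_min hrest hi ⟨ht', hin, hadj'⟩
    generalize Nat.find hrest = j at hj1 hj2 hj3 hjm
    have hjt : t + 2 ≤ j := by
      rcases Nat.lt_or_ge (t + 1) j with h' | h'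
      · omega
      · have : j = t + 1 := by omega
        rw [this] at hj3
        exact absurd hj3 htn
    have hjn : j + 1 ≠ n := fun h' => hvl j h' hj3
    obtain ⟨s, hs, hsN, hsn, hsn'⟩ : ∃ s : ℕ, s ≤ 1 ∧ (∀ i, i ≤ s → G.Adj h (v (j + i))) ∧
        ¬ G.Adj h (v (j + s + 1)) ∧ j + s + 1 < n := by
      by_cases g1 : G.Adj h (v (j + 1))
      · have h5 : j + 2 ≠ n := fun h' => hvl (j + 1) (by omega) g1
        refine ⟨1, le_rfl, ?_, fun g2 => h3 j (by omega) hj3 g1 g2, by omega⟩
        intro i hi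
        interval_cases i
        · exact hj3
        · exact g1
      · refine ⟨0, by omega, ?_, g1, by omega⟩
        intro i hi
        rw [Nat.le_zero.1 hi]
        exact hj3
    have hrest2 : ∀ i, j + s < i → i < n → ¬ G.Adj h (v i) := by
      intro i hi hin hadj'
      have h5 : i ≠ j + s + 1 := by
        intro h'
        rw [h'] at hadj'
        exact hsn hadj'
      have h6 : i + 1 ≠ n := fun h' => hvl i h' hadj'
      exact hno' 0 j i (by omega) (by omega) hin hv0 hj3 hadj' (by omega)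
    apply key (5 + 2 * t) (4 * j + 5 + 2 * s) (by unfold Od; omega) (by unfold Od; omega)
      (by omega)
    intro i hi
    rw [hbt i hi, hbt i hi]
    have hN : G.Adj h (v i) ↔ (i ≤ t ∨ (j ≤ i ∧ i ≤ j + s)) := by
      constructor
      · intro hadj'
        by_contra hcon
        rcases Nat.lt_or_ge i j with h' | h'
        · exact hjm i h' (by omega) hi hadj'
        · exact hrest2 i (by omega) hi hadj'
      · rintro (h' | ⟨h', h''⟩)
        · exact htN i h'
        · have := hsN (i - j) (by omega)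
          rwa [show j + (i - j) = i by omega] at this
    rw [hN]
    omega
  · have hN : ∀ i, i < n → (G.Adj h (v i) ↔ i ≤ t) := by
      intro i hi
      constructor
      · intro hadj'
        by_contra hcon
        exact hrest ⟨i, by omega, hi, hadj'⟩
      · exact htN i
    rcases Nat.lt_or_ge 0 t with h' | h'
    · have ht1 : t = 1 := by omega
      apply key 5 9 (by unfold Od; omega) (by unfold Od; omega) (by omega)
      intro i hi
      rw [hbt i hi, hbt i hi, hN i hi, ht1]
      omega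
    · have ht0 : t = 0 := by omega
      apply key 1 3 (by unfold Od; omega) (by unfold Od; omega) (by omega)
      intro i hi
      rw [hbt i hi, hbt i hi, hN i hi, ht0]
      omega

end Pool.Agent.Helper24.FF
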